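import Pool.Agent.T2H86.RF.Stm

set_option autoImplicit false

namespace Pool.Agent.T2H86.RF

open Finset MeasureTheory ProbabilityTheory Pool.Agent.T2H86.RC

namespace BC2

/-- the exceptional event -/
def Ev {Ω ι : Type} (T : ℕ → Finset ι) (F : ι → ℕ → ℝ → Ω → ℂ) (m r x : ℕ) : Set Ω :=
  ⋃ i ∈ T x, ⋃ j ∈ Icc (-((x : ℤ) ^ (m + 5) + 1)) ((x : ℤ) ^ (m + 5) + 1),
    {ω | (x : ℝ) ^ (1 / (r : ℝ)) ≤ ‖F i x ((j : ℝ) / (x : ℝ) ^ 5) ω‖}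

lemma markov {Ω : Type} [MeasurableSpace Ω] (μ : Measure Ω) [IsProbabilityMeasure μ]
    (F : ℕ → ℝ → Ω → ℂ) (hF : ∀ x t, Measurable (F x t)) (K : ℝ) (x : ℕ) (hx : 1 ≤ x)
    (hb : ∀ ω, ∀ t : ℝ, ‖F x t ω‖ ≤ K * (x : ℝ) ^ 5) (r k : ℕ) (C : ℝ) (t : ℝ)
    (hC : ∫ ω, ‖F x t ω‖ ^ (2 * k) ∂μ ≤ C * (x : ℝ) ^ (1 : ℝ)) :
    μ.real {ω | (x : ℝ) ^ (1 / (r : ℝ)) ≤ ‖F x t ω‖} ≤ C * x / ((x : ℝ) ^ (1 / (r : ℝ))) ^ (2 * k) := by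
  have hx0 : (0 : ℝ) < x := by exact_mod_cast hx
  have hp : 0 < ((x : ℝ) ^ (1 / (r : ℝ))) ^ (2 * k) := by positivity
  rw [le_div_iff₀ hp]
  have hint : Integrable (fun ω => ‖F x t ω‖ ^ (2 * k)) μ := by
    refine Integrable.of_bound ((hF x t).norm.pow_const (2 * k)).aestronglyMeasurable ((K * (x : ℝ) ^ 5) ^ (2 * k))
      (Filter.Eventually.of_forall fun ω => ?_)
    rw [Real.norm_eq_abs, abs_of_nonneg (by positivity)]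
    exact pow_le_pow_left₀ (norm_nonneg _) (hb ω t) _
  have h1 := mul_meas_ge_le_integral_of_nonneg (μ := μ) (f := fun ω => ‖F x t ω‖ ^ (2 * k))
    (ae_of_all μ fun ω => pow_nonneg (norm_nonneg _) (2 * k)) hint (((x : ℝ) ^ (1 / (r : ℝ))) ^ (2 * k))
  have h2 : {ω | (x : ℝ) ^ (1 / (r : ℝ)) ≤ ‖F x t ω‖} ⊆
      {ω | ((x : ℝ) ^ (1 / (r : ℝ))) ^ (2 * k) ≤ ‖F x t ω‖ ^ (2 * k)} := by
    intro ω hω
    have hω' : (x : ℝ) ^ (1 / (r : ℝ)) ≤ ‖F x t ω‖ := hω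
    show ((x : ℝ) ^ (1 / (r : ℝ))) ^ (2 * k) ≤ ‖F x t ω‖ ^ (2 * k)
    exact pow_le_pow_left₀ (Real.rpow_nonneg hx0.le _) hω' _
  have h3 : μ.real {ω | (x : ℝ) ^ (1 / (r : ℝ)) ≤ ‖F x t ω‖} ≤
      μ.real {ω | ((x : ℝ) ^ (1 / (r : ℝ))) ^ (2 * k) ≤ ‖F x t ω‖ ^ (2 * k)} := measureReal_mono h2 (measure_ne_top μ _)
  rw [Real.rpow_one] at hC
  calc μ.real {ω | (x : ℝ) ^ (1 / (r : ℝ)) ≤ ‖F x t ω‖} * ((x : ℝ) ^ (1 / (r : ℝ))) ^ (2 * k)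
      ≤ μ.real {ω | ((x : ℝ) ^ (1 / (r : ℝ))) ^ (2 * k) ≤ ‖F x t ω‖ ^ (2 * k)} * ((x : ℝ) ^ (1 / (r : ℝ))) ^ (2 * k) := by
        gcongr
    _ = ((x : ℝ) ^ (1 / (r : ℝ))) ^ (2 * k) *
        μ.real {ω | ((x : ℝ) ^ (1 / (r : ℝ))) ^ (2 * k) ≤ ‖F x t ω‖ ^ (2 * k)} := mul_comm _ _
    _ ≤ _ := h1
    _ ≤ C * x := hC

lemma card_net (x m : ℕ) (hx : 1 ≤ x) :
    (((Icc (-((x : ℤ) ^ (m + 5) + 1)) ((x : ℤ) ^ (m + 5) + 1)).card : ℕ) : ℝ) ≤ 5 * (x : ℝ) ^ (m + 5) := by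
  rw [Int.card_Icc]
  have h1 : (1 : ℤ) ≤ (x : ℤ) ^ (m + 5) := one_le_pow₀ (by exact_mod_cast hx)
  have h2 : ((((x : ℤ) ^ (m + 5) + 1 + 1 - -((x : ℤ) ^ (m + 5) + 1)).toNat : ℕ) : ℤ) ≤ 5 * (x : ℤ) ^ (m + 5) := by
    rw [Int.toNat_of_nonneg (by linarith)]
    linarith
  exact_mod_cast h2

lemma ev_bound {Ω ι : Type} [MeasurableSpace Ω] (μ : Measure Ω) [IsProbabilityMeasure μ]
    (T : ℕ → Finset ι) (F : ι → ℕ → ℝ → Ω → ℂ) (hF : ∀ i x t, Measurable (F i x t)) (K : ℝ)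
    (hb : ∀ i, ∀ x : ℕ, 1 ≤ x → ∀ ω, ∀ t : ℝ, ‖F i x t ω‖ ≤ K * (x : ℝ) ^ 5) (m r B : ℕ) (hr : 1 ≤ r)
    (C₁ : ℝ) (hC₁ : 0 ≤ C₁) (C : ℝ) (hC0 : 0 ≤ C)
    (hC : ∀ i, ∀ x : ℕ, 1 ≤ x → ∀ t : ℝ,
      ∫ ω, ‖F i x t ω‖ ^ (2 * (r * (m * B + m + 8))) ∂μ ≤ C * (x : ℝ) ^ (1 : ℝ))
    (x : ℕ) (hx : 1 ≤ x) (hT : ((T x).card : ℝ) ≤ C₁ * (x : ℝ) ^ (m * B)) :
    μ.real (Ev T F m r x) ≤ 5 * C₁ * C * (1 / (x : ℝ) ^ 2) := by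
  have hx1 : (1 : ℝ) ≤ x := by exact_mod_cast hx
  have hx0 : (0 : ℝ) < x := by linarith
  have hr0 : (0 : ℝ) < r := by exact_mod_cast hr
  have h1 : ((x : ℝ) ^ (1 / (r : ℝ))) ^ (2 * (r * (m * B + m + 8))) = (x : ℝ) ^ (2 * (m * B + m + 8)) := by
    rw [← Real.rpow_natCast, ← Real.rpow_mul hx0.le, ← Real.rpow_natCast]
    congr 1
    push_cast
    field_simp
  have h2 : ∀ i, ∀ j ∈ Icc (-((x : ℤ) ^ (m + 5) + 1)) ((x : ℤ) ^ (m + 5) + 1),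
      μ.real {ω | (x : ℝ) ^ (1 / (r : ℝ)) ≤ ‖F i x ((j : ℝ) / (x : ℝ) ^ 5) ω‖} ≤
        C * x / (x : ℝ) ^ (2 * (m * B + m + 8)) := by
    intro i j _
    rw [← h1]
    exact markov μ (F i) (hF i) K x hx (hb i x hx) r _ C _ (hC i x hx _)
  have h3 : ∀ i, μ.real (⋃ j ∈ Icc (-((x : ℤ) ^ (m + 5) + 1)) ((x : ℤ) ^ (m + 5) + 1),
      {ω | (x : ℝ) ^ (1 / (r : ℝ)) ≤ ‖F i x ((j : ℝ) / (x : ℝ) ^ 5) ω‖}) ≤
        (5 * (x : ℝ) ^ (m + 5)) * (C * x / (x : ℝ) ^ (2 * (m * B + m + 8))) := by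
    intro i
    calc μ.real (⋃ j ∈ Icc (-((x : ℤ) ^ (m + 5) + 1)) ((x : ℤ) ^ (m + 5) + 1),
        {ω | (x : ℝ) ^ (1 / (r : ℝ)) ≤ ‖F i x ((j : ℝ) / (x : ℝ) ^ 5) ω‖}) ≤
          ∑ j ∈ Icc (-((x : ℤ) ^ (m + 5) + 1)) ((x : ℤ) ^ (m + 5) + 1),
          μ.real {ω | (x : ℝ) ^ (1 / (r : ℝ)) ≤ ‖F i x ((j : ℝ) / (x : ℝ) ^ 5) ω‖} :=
            measureReal_biUnion_finset_le _ _
      _ ≤ ∑ j ∈ Icc (-((x : ℤ) ^ (m + 5) + 1)) ((x : ℤ) ^ (m + 5) + 1),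
          C * x / (x : ℝ) ^ (2 * (m * B + m + 8)) := sum_le_sum (h2 i)
      _ = ((Icc (-((x : ℤ) ^ (m + 5) + 1)) ((x : ℤ) ^ (m + 5) + 1)).card : ℝ) *
          (C * x / (x : ℝ) ^ (2 * (m * B + m + 8))) := by rw [sum_const, nsmul_eq_mul]
      _ ≤ _ := by
          gcongr
          exact card_net x m hx
  calc μ.real (Ev T F m r x) ≤ ∑ i ∈ T x, μ.real
        (⋃ j ∈ Icc (-((x : ℤ) ^ (m + 5) + 1)) ((x : ℤ) ^ (m + 5) + 1),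
          {ω | (x : ℝ) ^ (1 / (r : ℝ)) ≤ ‖F i x ((j : ℝ) / (x : ℝ) ^ 5) ω‖}) :=
        measureReal_biUnion_finset_le _ _
    _ ≤ ∑ _i ∈ T x, (5 * (x : ℝ) ^ (m + 5)) * (C * x / (x : ℝ) ^ (2 * (m * B + m + 8))) :=
        sum_le_sum fun i _ => h3 i
    _ = ((T x).card : ℝ) * ((5 * (x : ℝ) ^ (m + 5)) * (C * x / (x : ℝ) ^ (2 * (m * B + m + 8)))) := by
        rw [sum_const, nsmul_eq_mul]
    _ ≤ (C₁ * (x : ℝ) ^ (m * B)) * ((5 * (x : ℝ) ^ (m + 5)) * (C * x / (x : ℝ) ^ (2 * (m * B + m + 8)))) :=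
        mul_le_mul_of_nonneg_right hT (by positivity)
    _ = 5 * C₁ * C * ((x : ℝ) ^ (m * B + m + 6) / (x : ℝ) ^ (2 * (m * B + m + 8))) := by
        rw [show m * B + m + 6 = m * B + (m + 5) + 1 by ring, pow_succ, pow_add]
        ring
    _ ≤ 5 * C₁ * C * (1 / (x : ℝ) ^ 2) := by
        refine mul_le_mul_of_nonneg_left ?_ (by positivity)
        rw [div_le_div_iff₀ (by positivity) (by positivity), one_mul, ← pow_add]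
        exact pow_le_pow_right₀ hx1 (by nlinarith)

lemma key {Ω ι : Type} [MeasurableSpace Ω] (μ : Measure Ω) [IsProbabilityMeasure μ]
    (h : ι → ℕ) (F : ι → ℕ → ℝ → Ω → ℂ) (B : ℕ) (C₁ : ℝ)
    (hcard : ∀ x : ℕ, 1 ≤ x → ∀ S : Finset ι, (∀ i ∈ S, h i ≤ x) → (S.card : ℝ) ≤ C₁ * (x : ℝ) ^ B)
    (hF : ∀ i x t, Measurable (F i x t)) (K : ℝ)
    (hmom : ∀ (k : ℕ) (ε : ℝ), 0 < ε → ∃ C : ℝ, ∀ (i : ι) (x : ℕ), 1 ≤ x → ∀ t : ℝ,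
      ∫ ω, ‖F i x t ω‖ ^ (2 * k) ∂μ ≤ C * (x : ℝ) ^ ε)
    (hL : ∀ (i : ι) (x : ℕ), 1 ≤ x → ∀ ω, (∀ t t' : ℝ, ‖F i x t ω - F i x t' ω‖ ≤ K * (x : ℝ) ^ 5 * |t - t'|) ∧
      ∀ t : ℝ, ‖F i x t ω‖ ≤ K * (x : ℝ) ^ 5) (hK : 0 ≤ K) (m r : ℕ) (hr : 1 ≤ r) :
    ∀ᵐ ω ∂μ, ∃ N : ℕ, ∀ x : ℕ, N ≤ x → 1 ≤ x → ∀ i : ι, h i ≤ x ^ m → ∀ t : ℝ, |t| ≤ (x : ℝ) ^ m →
      ‖F i x t ω‖ ≤ (x : ℝ) ^ (1 / (r : ℝ)) + K := by
  have hfin : ∀ y : ℕ, 1 ≤ y → {i : ι | h i ≤ y}.Finite := by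
    intro y hy
    by_contra hinf
    obtain ⟨S, hS, hSc⟩ := Set.Infinite.exists_subset_card_eq hinf (⌊C₁ * (y : ℝ) ^ B⌋₊ + 1)
    have h1 := hcard y hy S fun i hi => hS hi
    rw [hSc] at h1
    have h2 := Nat.lt_floor_add_one (C₁ * (y : ℝ) ^ B)
    push_cast at h1
    linarith
  have hC₁ : 0 ≤ C₁ := by
    have := hcard 1 le_rfl ∅ (by simp)
    simpa using this
  classical
  set T : ℕ → Finset ι := fun x => if hx : 1 ≤ x ^ m then (hfin (x ^ m) hx).toFinset else ∅ with hTdef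
  have hTmem : ∀ x : ℕ, 1 ≤ x → ∀ i : ι, h i ≤ x ^ m → i ∈ T x := by
    intro x hx i hi
    have h1 : 1 ≤ x ^ m := Nat.one_le_pow _ _ (by omega)
    rw [hTdef]
    simp only [dif_pos h1, Set.Finite.mem_toFinset]
    exact hi
  have hTcard : ∀ x : ℕ, 1 ≤ x → ((T x).card : ℝ) ≤ C₁ * (x : ℝ) ^ (m * B) := by
    intro x hx
    have h1 : 1 ≤ x ^ m := Nat.one_le_pow _ _ (by omega)
    have h2 := hcard (x ^ m) h1 (T x) (by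
      intro i hi
      rw [hTdef] at hi
      simp only [dif_pos h1, Set.Finite.mem_toFinset] at hi
      exact hi)
    rw [Nat.cast_pow, ← pow_mul] at h2
    exact h2
  rcases isEmpty_or_nonempty ι with hι | ⟨⟨i₀⟩⟩
  · exact Filter.Eventually.of_forall fun ω => ⟨0, fun x _ _ i => (hι.false i).elim⟩
  obtain ⟨C, hC⟩ := hmom (r * (m * B + m + 8)) 1 one_pos
  have hC0 : 0 ≤ C := by
    have h1 := hC i₀ 1 le_rfl 0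
    have h2 : 0 ≤ ∫ ω, ‖F i₀ 1 0 ω‖ ^ (2 * (r * (m * B + m + 8))) ∂μ := integral_nonneg fun ω => by positivity
    simp at h1
    linarith
  have h1 : (∑' n : ℕ, μ (Ev T F m r (n + 1))) ≠ ⊤ := by
    have h2 : Summable (fun n : ℕ => 5 * C₁ * C * (1 / ((n + 1 : ℕ) : ℝ) ^ 2)) := by
      have h3 := (summable_nat_add_iff (f := fun n : ℕ => 1 / (n : ℝ) ^ 2) 1).2
        (Real.summable_one_div_nat_pow.2 one_lt_two)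
      exact h3.mul_left (5 * C₁ * C)
    refine ne_top_of_le_ne_top h2.tsum_ofReal_ne_top (ENNReal.tsum_le_tsum fun n => ?_)
    have h3 := ev_bound μ T F hF K (fun i x hx ω => (hL i x hx ω).2) m r B hr C₁ hC₁ C hC0 hC
      (n + 1) (by omega) (hTcard (n + 1) (by omega))
    rw [← ENNReal.ofReal_toReal (measure_ne_top μ (Ev T F m r (n + 1)))]
    exact ENNReal.ofReal_le_ofReal h3
  filter_upwards [ae_eventually_notMem h1] with ω hω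
  obtain ⟨N, hN⟩ := Filter.eventually_atTop.1 hω
  refine ⟨N + 1, fun x hx hx1 i hi t ht => ?_⟩
  have h2 := hN (x - 1) (by omega)
  rw [Nat.sub_add_cancel hx1] at h2
  have hxr : (1 : ℝ) ≤ x := by exact_mod_cast hx1
  have hx0 : (0 : ℝ) < x := by linarith
  have hx5 : (0 : ℝ) < (x : ℝ) ^ 5 := by positivity
  set j : ℤ := ⌊t * (x : ℝ) ^ 5⌋ with hj
  have hj1 : (j : ℝ) ≤ t * (x : ℝ) ^ 5 := Int.floor_le _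
  have hj2 : t * (x : ℝ) ^ 5 < j + 1 := Int.lt_floor_add_one _
  have ht1 : |t * (x : ℝ) ^ 5| ≤ (x : ℝ) ^ (m + 5) := by
    rw [abs_mul, abs_of_pos hx5, pow_add]
    gcongr
  have ht2 := abs_le.1 ht1
  have hjm : j ∈ Icc (-((x : ℤ) ^ (m + 5) + 1)) ((x : ℤ) ^ (m + 5) + 1) := by
    rw [mem_Icc]
    constructor
    · have : (-((x : ℝ) ^ (m + 5) + 1)) ≤ (j : ℝ) := by linarith
      exact_mod_cast this
    · have : (j : ℝ) ≤ (x : ℝ) ^ (m + 5) + 1 := by linarith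
      exact_mod_cast this
  have h3 : ‖F i x ((j : ℝ) / (x : ℝ) ^ 5) ω‖ < (x : ℝ) ^ (1 / (r : ℝ)) := by
    by_contra hcon
    push Not at hcon
    apply h2
    unfold Ev
    exact Set.mem_biUnion (mem_coe.2 (hTmem x hx1 i hi)) (Set.mem_biUnion (mem_coe.2 hjm) hcon)
  have h4 := (hL i x hx1 ω).1 t ((j : ℝ) / (x : ℝ) ^ 5)
  have h5 : |t - (j : ℝ) / (x : ℝ) ^ 5| ≤ 1 / (x : ℝ) ^ 5 := by
    have h6 : t - (j : ℝ) / (x : ℝ) ^ 5 = (t * (x : ℝ) ^ 5 - j) / (x : ℝ) ^ 5 := by field_simp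
    rw [h6, abs_div, abs_of_pos hx5, abs_of_nonneg (by linarith)]
    gcongr
    linarith
  have h6 : K * (x : ℝ) ^ 5 * |t - (j : ℝ) / (x : ℝ) ^ 5| ≤ K := by
    calc K * (x : ℝ) ^ 5 * |t - (j : ℝ) / (x : ℝ) ^ 5| ≤ K * (x : ℝ) ^ 5 * (1 / (x : ℝ) ^ 5) := by gcongr
      _ = K := by field_simp
  calc ‖F i x t ω‖ = ‖F i x ((j : ℝ) / (x : ℝ) ^ 5) ω + (F i x t ω - F i x ((j : ℝ) / (x : ℝ) ^ 5) ω)‖ := by
        congr 1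
        ring
    _ ≤ ‖F i x ((j : ℝ) / (x : ℝ) ^ 5) ω‖ + ‖F i x t ω - F i x ((j : ℝ) / (x : ℝ) ^ 5) ω‖ := norm_add_le _ _
    _ ≤ (x : ℝ) ^ (1 / (r : ℝ)) + K := by linarith

end BC2

theorem pBC2 : S_BC2 := by
  intro Ω ι _ μ _ h F hcard hF hmom hL
  obtain ⟨B, C₁, hcard⟩ := hcard
  obtain ⟨K, hK, hL⟩ := hL
  have h1 : ∀ᵐ ω ∂μ, ∀ m r : ℕ, 1 ≤ r → ∃ N : ℕ, ∀ x : ℕ, N ≤ x → 1 ≤ x → ∀ i : ι, h i ≤ x ^ m →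
      ∀ t : ℝ, |t| ≤ (x : ℝ) ^ m → ‖F i x t ω‖ ≤ (x : ℝ) ^ (1 / (r : ℝ)) + K := by
    rw [ae_all_iff]
    intro m
    rw [ae_all_iff]
    intro r
    by_cases hr : 1 ≤ r
    · filter_upwards [BC2.key μ h F B C₁ hcard hF K hmom hL hK m r hr] with ω hω _
      exact hω
    · exact Filter.Eventually.of_forall fun ω h => absurd h hr
  filter_upwards [h1] with ω hω A ε hA hε
  obtain ⟨r, hr⟩ := exists_nat_one_div_lt hε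
  obtain ⟨N, hN⟩ := hω ⌈A⌉₊ (r + 1) (by omega)
  refine ⟨(1 + K) + K * (N : ℝ) ^ 5, fun x hx i hi t ht => ?_⟩
  have hxr : (1 : ℝ) ≤ x := by exact_mod_cast hx
  have hxε : 1 ≤ (x : ℝ) ^ ε := Real.one_le_rpow hxr hε.le
  have hxA : (x : ℝ) ^ A ≤ (x : ℝ) ^ ⌈A⌉₊ := by
    rw [← Real.rpow_natCast]
    exact Real.rpow_le_rpow_of_exponent_le hxr (Nat.le_ceil A)
  by_cases hNx : N ≤ x
  · have h2 : |t| ≤ (x : ℝ) ^ ⌈A⌉₊ := ht.trans hxA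
    have hi2 : h i ≤ x ^ ⌈A⌉₊ := by
      have := hi.trans hxA
      exact_mod_cast this
    have h3 := hN x hNx hx i hi2 t h2
    have h4 : (x : ℝ) ^ (1 / ((r + 1 : ℕ) : ℝ)) ≤ (x : ℝ) ^ ε := by
      apply Real.rpow_le_rpow_of_exponent_le hxr
      push_cast
      exact hr.le
    have h5 : 0 ≤ K * (N : ℝ) ^ 5 := by positivity
    calc ‖F i x t ω‖ ≤ (x : ℝ) ^ (1 / ((r + 1 : ℕ) : ℝ)) + K := h3
      _ ≤ (x : ℝ) ^ ε + K * (x : ℝ) ^ ε := by nlinarith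
      _ ≤ ((1 + K) + K * (N : ℝ) ^ 5) * (x : ℝ) ^ ε := by nlinarith
  · push Not at hNx
    have h2 := (hL i x hx ω).2 t
    have h3 : (x : ℝ) ≤ N := by exact_mod_cast hNx.le
    have h4 : K * (x : ℝ) ^ 5 ≤ K * (N : ℝ) ^ 5 := by gcongr
    have h5 : 0 ≤ K * (N : ℝ) ^ 5 := by positivity
    nlinarith

end Pool.Agent.T2H86.RF
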