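import Pool.Agent.T2H86.RF.Stm

/-!
# Package BO2
-/

set_option autoImplicit false

namespace Pool.Agent.T2H86.RF

open Finset MeasureTheory ProbabilityTheory Pool.Agent.T2H86.RC

namespace BO2

theorem norm_prod {P : Type} (q : P → ℕ) (n : P →₀ ℕ) (s : Finset P) (h : n.support ⊆ s) :
    (norm q n : ℝ) = ∏ p ∈ s, (q p : ℝ) ^ (n p) := by
  unfold RC.norm
  rw [Finsupp.prod_of_support_subset n h _ (fun p _ => pow_zero _)]
  push_cast
  rfl

theorem pow_rpow (a : ℝ) (ha : 0 ≤ a) (j : ℕ) :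
    (a ^ j) ^ (-(1 / 2) : ℝ) = a ^ (-(j : ℝ) / 2) := by
  rw [← Real.rpow_natCast a j, ← Real.rpow_mul ha]
  congr 1
  ring

end BO2

open BO2 in
theorem pBO2 (hUB : S_UB) : S_BO2 := by
  intro P q hq s J y
  classical
  rw [Finset.prod_sum, Finset.finsupp, Finset.sum_map]
  refine Finset.sum_congr rfl fun g _ => ?_
  change _ = (norm q (Finsupp.indicator s g) : ℝ) ^ (-(1 / 2) : ℝ) * lamY y (Finsupp.indicator s g)
  have hsub : (Finsupp.indicator s g).support ⊆ s := Finsupp.support_indicator_subset s g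
  have hlam : lamY y (Finsupp.indicator s g) = ∏ p ∈ s, U (Finsupp.indicator s g p) (y p) := by
    unfold lamY
    exact Finsupp.prod_of_support_subset _ hsub _ (fun p _ => hUB.1 (y p))
  rw [hlam, norm_prod q _ s hsub, ← Real.finsetProd_rpow _ _ (fun p _ => by positivity),
    ← Finset.prod_mul_distrib, ← Finset.prod_attach s]
  refine Finset.prod_congr rfl fun x _ => ?_
  rw [Finsupp.indicator_of_mem x.2, pow_rpow _ (Nat.cast_nonneg _)]

end Pool.Agent.T2H86.RF
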