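import Pool.Agent.T2H86.RF.Stm

/-!
# Package CG
-/

set_option autoImplicit false

namespace Pool.Agent.T2H86.RF

open Finset MeasureTheory ProbabilityTheory Pool.Agent.T2H86.RC

namespace CG

theorem U_one (y : ℝ) : U 1 y = 2 * y := by
  unfold U
  simp

theorem U_rec (j : ℕ) (y : ℝ) : U (j + 2) y = 2 * y * U (j + 1) y - U j y := by
  unfold U
  have h := Polynomial.Chebyshev.U_add_two ℝ (j : ℤ)
  push_cast
  rw [h]
  simp

/-- the functions that are finite sums of `U_c`'s with nonnegative coefficients -/
inductive Pos : (ℝ → ℝ) → Prop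
  | basic (c : ℕ) : Pos (U c)
  | zero : Pos (fun _ => 0)
  | add {f g : ℝ → ℝ} : Pos f → Pos g → Pos (fun y => f y + g y)

/-- Clebsch-Gordan for `a ≤ b`, two steps at a time. -/
theorem cg (hU0 : ∀ y : ℝ, U 0 y = 1) : ∀ a b : ℕ, a ≤ b →
    ∀ y, U a y * U b y = ∑ i ∈ range (a + 1), U (a + b - 2 * i) y := by
  intro a
  induction a using Nat.strong_induction_on with
  | _ a ih =>
    intro b hab y
    match a, ih, hab with
    | 0, _, _ =>
      rw [hU0]
      simp
    | 1, _, hab =>
      obtain ⟨c, rfl⟩ : ∃ c, b = c + 1 := ⟨b - 1, by omega⟩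
      rw [U_one, Finset.sum_range_succ, Finset.sum_range_succ, Finset.sum_range_zero]
      have e1 : 1 + (c + 1) - 2 * 0 = c + 2 := by omega
      have e2 : 1 + (c + 1) - 2 * 1 = c := by omega
      rw [e1, e2, U_rec c y]
      ring
    | (a + 2), ih, hab =>
      have h1 := ih (a + 1) (by omega) b (by omega) y
      have h0 := ih a (by omega) b (by omega) y
      have h1' := ih (a + 1) (by omega) (b - 1) (by omega) y
      have h1'' := ih (a + 1) (by omega) (b + 1) (by omega) y
      obtain ⟨c, rfl⟩ : ∃ c, b = c + 1 := ⟨b - 1, by omega⟩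
      -- `2 y U_b = U_(b+1) + U_(b-1)`
      have hb : 2 * y * U (c + 1) y = U (c + 2) y + U c y := by rw [U_rec c y]; ring
      have e0 : c + 1 - 1 = c := by omega
      rw [e0] at h1'
      have e : U (a + 2) y * U (c + 1) y =
          U (a + 1) y * U (c + 1 + 1) y + U (a + 1) y * U c y - U a y * U (c + 1) y := by
        rw [U_rec a y]
        have : (2 * y * U (a + 1) y - U a y) * U (c + 1) y =
          U (a + 1) y * (2 * y * U (c + 1) y) - U a y * U (c + 1) y := by ring
        rw [this, hb]
        ring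
      rw [e, h1'', h1', h0]
      -- sums
      have s1 : ∑ i ∈ range (a + 1 + 1), U (a + 1 + c - 2 * i) y =
          ∑ i ∈ range (a + 1), U (a + (c + 1) - 2 * i) y + U (a + 1 + c - 2 * (a + 1)) y := by
        rw [Finset.sum_range_succ]
        congr 1
        apply Finset.sum_congr rfl
        intro i _
        congr 1
        omega
      have s2 : ∑ i ∈ range (a + 2 + 1), U (a + 2 + (c + 1) - 2 * i) y =
          ∑ i ∈ range (a + 1 + 1), U (a + 1 + (c + 1 + 1) - 2 * i) y +
            U (a + 1 + c - 2 * (a + 1)) y := by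
        rw [Finset.sum_range_succ]
        congr 1
        · apply Finset.sum_congr rfl
          intro i _
          congr 1
          omega
        · congr 1
          omega
      rw [s1, s2]
      ring

theorem Pos.sum {ι : Type} (s : Finset ι) (f : ι → ℝ → ℝ) (h : ∀ i ∈ s, Pos (f i)) :
    Pos (fun y => ∑ i ∈ s, f i y) := by
  classical
  induction s using Finset.induction_on with
  | empty => simpa using Pos.zero
  | insert a s ha ih =>
    have h1 := h a (Finset.mem_insert_self a s)
    have h2 := ih fun i hi => h i (Finset.mem_insert_of_mem hi)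
    have := Pos.add h1 h2
    refine (congrArg Pos ?_).mp this
    funext y
    rw [Finset.sum_insert ha]

theorem Pos.mulU (hU0 : ∀ y : ℝ, U 0 y = 1) (c : ℕ) {f : ℝ → ℝ} (h : Pos f) :
    Pos (fun y => U c y * f y) := by
  induction h with
  | basic d =>
    rcases le_total c d with hcd | hcd
    · have : (fun y => U c y * U d y) = fun y => ∑ i ∈ range (c + 1), U (c + d - 2 * i) y := by
        funext y
        exact cg hU0 c d hcd y
      rw [this]
      exact Pos.sum _ _ fun i _ => Pos.basic _
    · have : (fun y => U c y * U d y) = fun y => ∑ i ∈ range (d + 1), U (d + c - 2 * i) y := by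
        funext y
        rw [mul_comm]
        exact cg hU0 d c hcd y
      rw [this]
      exact Pos.sum _ _ fun i _ => Pos.basic _
  | zero => simpa using Pos.zero
  | add _ _ h1 h2 =>
    have := Pos.add h1 h2
    refine (congrArg Pos ?_).mp this
    funext y
    ring

theorem Pos.prod (hU0 : ∀ y : ℝ, U 0 y = 1) {ι : Type} (s : Finset ι) (e : ι → ℕ) :
    Pos (fun y => ∏ i ∈ s, U (e i) y) := by
  classical
  induction s using Finset.induction_on with
  | empty =>
    have := Pos.basic 0
    refine (congrArg Pos ?_).mp this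
    funext y
    rw [hU0]
    simp
  | insert a s ha ih =>
    have := ih.mulU hU0 (e a)
    refine (congrArg Pos ?_).mp this
    funext y
    rw [Finset.prod_insert ha]

theorem Pos.expect (hUB : S_UB) {Ω : Type} [MeasurableSpace Ω] (μ : Measure Ω)
    [IsProbabilityMeasure μ] (Y : Ω → ℝ) (hY : Measurable Y) (hb : ∀ ω, |Y ω| ≤ 1)
    (hst : ∀ j : ℕ, 1 ≤ j → ∫ ω, U j (Y ω) ∂μ = 0) {f : ℝ → ℝ} (h : Pos f) :
    Integrable (fun ω => f (Y ω)) μ ∧ 0 ≤ ∫ ω, f (Y ω) ∂μ := by
  obtain ⟨hU0, hUb, hUc⟩ := hUB
  induction h with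
  | basic c =>
    refine ⟨?_, ?_⟩
    · refine Integrable.of_bound ((hUc c).measurable.comp hY).aestronglyMeasurable ((c : ℝ) + 1)
        (Filter.Eventually.of_forall fun ω => ?_)
      rw [Real.norm_eq_abs]
      exact hUb c _ (hb ω)
    · rcases Nat.eq_zero_or_pos c with rfl | hc
      · simp [hU0]
      · exact (hst c hc).ge
  | zero => simp
  | add _ _ h1 h2 =>
    refine ⟨h1.1.add h2.1, ?_⟩
    have := integral_add h1.1 h2.1
    rw [this]
    exact add_nonneg h1.2 h2.2

end CG

open CG in
theorem pCG (hUB : S_UB) : S_CG := by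
  intro Ω _ μ _ Y hY hb hst ι s e
  exact (Pos.expect hUB μ Y hY hb hst (Pos.prod hUB.1 s e)).2

end Pool.Agent.T2H86.RF
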