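import Pool.Agent.T2H86.RF.Stm

set_option autoImplicit false

namespace Pool.Agent.T2H86.RF

open Finset MeasureTheory ProbabilityTheory Pool.Agent.T2H86.RC

namespace EX2

lemma lam_eq {P : Type} (h0 : ∀ y : ℝ, U 0 y = 1) (y : P → ℝ) (n : P →₀ ℕ) (t : Finset P)
    (ht : n.support ⊆ t) : lamY y n = ∏ p ∈ t, U (n p) (y p) := by
  unfold lamY
  exact Finsupp.prod_of_support_subset n ht _ fun p _ => h0 (y p)

end EX2

open EX2 in
theorem pEX2 (hUB : S_UB) (hCG : S_CG) (hPR2 : S_PR2) : S_EX2 := by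
  intro P Ω _ μ _ Y hY
  obtain ⟨h0, hb, hc⟩ := hUB
  refine ⟨?_, ?_, ?_⟩
  · intro n
    have e : (fun ω => lamY (fun p => Y p ω) n) = fun ω => ∏ p ∈ n.support, U (n p) (Y p ω) :=
      funext fun ω => lam_eq h0 _ n n.support subset_rfl
    rw [e]
    exact Finset.measurable_prod _ fun p _ => (hc (n p)).measurable.comp (hY.meas p)
  · intro n
    refine ⟨∏ p ∈ n.support, ((n p : ℝ) + 1), fun ω => ?_⟩
    rw [lam_eq h0 _ n n.support subset_rfl, Finset.abs_prod]
    exact Finset.prod_le_prod (fun p _ => abs_nonneg _) fun p _ => hb (n p) (Y p ω) (hY.bdd p ω)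
  · intro ι s g
    classical
    set t : Finset P := s.biUnion fun i => (g i).support with ht
    have e : ∀ ω, ∏ i ∈ s, lamY (fun p => Y p ω) (g i) =
        ∏ p ∈ t, ∏ i ∈ s, U (g i p) (Y p ω) := by
      intro ω
      rw [Finset.prod_comm]
      refine Finset.prod_congr rfl fun i hi => ?_
      exact lam_eq h0 _ (g i) t (Finset.subset_biUnion_of_mem (fun i => (g i).support) hi)
    simp only [e]
    rw [hPR2 μ Y hY.meas hY.indep hY.bdd t (fun p y => ∏ i ∈ s, U (g i p) y)
      (fun p => continuous_finsetProd _ fun i _ => hc (g i p))]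
    exact Finset.prod_nonneg fun p _ =>
      hCG μ (Y p) (hY.meas p) (hY.bdd p) (hY.satoTate p) s fun i => g i p

end Pool.Agent.T2H86.RF
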