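import Pool.Agent.T2H86.RF.Stm
import Pool.Agent.T2H86.RC.FIN

set_option autoImplicit false

namespace Pool.Agent.T2H86.RF

open Finset MeasureTheory ProbabilityTheory Pool.Agent.T2H86.RC

theorem pFIN2 : S_FIN2 := by
  intro P q hq
  obtain ⟨h1, h2, h3, _⟩ := Pool.Agent.T2H86.RC.pFIN q hq
  exact ⟨h1, h2, h3⟩

end Pool.Agent.T2H86.RF
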