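import Pool.Agent.T2H86.RF.Stm
import Pool.Agent.T2H86.RC.FIN
import Pool.Agent.T2H86.RC.MUL
import Pool.Agent.T2H86.RC.BOX
import Pool.Agent.T2H86.RC.POL
import Pool.Agent.T2H86.RC.LIP

set_option autoImplicit false

namespace Pool.Agent.T2H86.RF

open Finset MeasureTheory ProbabilityTheory Pool.Agent.T2H86.RC

namespace LI2

/-- The number of divisors of `n`. -/
noncomputable def dv {P : Type} (n : P →₀ ℕ) : ℂ := n.prod fun _ j => ((j : ℂ) + 1)

theorem dv_single {P : Type} (p : P) (j : ℕ) : dv (Finsupp.single p j) = (j : ℂ) + 1 := by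
  unfold dv
  rw [Finsupp.prod_single_index]
  simp

theorem norm_dv_single {P : Type} (p : P) (j : ℕ) : ‖dv (Finsupp.single p j)‖ = (j : ℝ) + 1 := by
  rw [dv_single]
  have : ((j : ℂ) + 1) = (((j : ℝ) + 1 : ℝ) : ℂ) := by push_cast; rfl
  rw [this, Complex.norm_real, Real.norm_of_nonneg (by positivity)]

theorem norm_dv {P : Type} (n : P →₀ ℕ) : ‖dv n‖ = n.prod fun _ j => ((j : ℝ) + 1) := by
  unfold dv Finsupp.prod
  rw [norm_prod]
  refine Finset.prod_congr rfl (fun p _ => ?_)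
  beta_reduce
  have : (((n p : ℕ) : ℂ) + 1) = ((((n p : ℕ) : ℝ) + 1 : ℝ) : ℂ) := by push_cast; rfl
  rw [this, Complex.norm_real, Real.norm_of_nonneg (by positivity)]

theorem coeff {P : Type} (q : P → ℕ) (hq : PrimeSystem q) : CoeffSystem q (dv (P := P)) := by
  classical
  refine ⟨?_, ?_, ⟨0, le_refl _, by norm_num, ?_⟩, ?_, ?_⟩
  · unfold dv
    exact Finsupp.prod_zero_index
  · intro m n h
    unfold dv
    exact Finsupp.prod_add_index_of_disjoint h _
  · intro p j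
    rw [norm_dv_single]
    simp
  · intro p
    rw [norm_dv_single, norm_dv_single]
    norm_num
  · intro ε hε
    obtain ⟨C, hC⟩ := hq.recip (ε / 4) (by positivity)
    refine ⟨4 * C, ?_⟩
    intro x hx S hS
    have h := hC x hx S hS
    have e : ∑ p ∈ S, ‖dv (Finsupp.single p 1)‖ ^ 2 / (q p : ℝ) = 4 * ∑ p ∈ S, 1 / (q p : ℝ) := by
      rw [Finset.mul_sum]
      refine Finset.sum_congr rfl (fun p _ => ?_)
      rw [norm_dv_single]
      norm_num
      ring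
    rw [e]
    linarith

theorem lamY_le (hUB : S_UB) {P : Type} (y : P → ℝ) (hy : ∀ p, |y p| ≤ 1) (n : P →₀ ℕ) :
    |lamY y n| ≤ ‖dv n‖ := by
  rw [norm_dv]
  unfold lamY Finsupp.prod
  rw [Finset.abs_prod]
  exact Finset.prod_le_prod (fun i _ => abs_nonneg _) (fun i _ => hUB.2.1 (n i) (y i) (hy i))

/-- The sum is a finite sum. -/
theorem twistSum_eq {P : Type} (q : P → ℕ) (y : P → ℝ) (χ : (P →₀ ℕ) → ℂ) (x : ℕ) (t : ℝ)
    (hf : {n : P →₀ ℕ | norm q n ≤ x}.Finite) :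
    twistSum q y χ x t = ∑ n ∈ hf.toFinset,
      (lamY y n : ℂ) * χ n * (norm q n : ℂ) ^ (-(1 / 2 : ℂ) - t * Complex.I) := by
  unfold twistSum
  rw [← finsum_mem_coe_finset]
  simp only [Set.Finite.coe_toFinset, Set.mem_ofPred_eq]

end LI2

/-- The twisted sums are Lipschitz in `t`, with a polynomial bound. -/
theorem pLI2 (hFIN : S_FIN2) (hUB : S_UB) : S_LI2 := by
  intro P q hq
  obtain ⟨K, hK0, hK⟩ := pPOL pFIN pMUL pBOX q hq (LI2.dv (P := P)) (LI2.coeff q hq)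
  obtain ⟨hfin, -, hpos⟩ := hFIN q hq
  refine ⟨K, hK0, ?_⟩
  intro y hy χ hχ x hx
  have hx1 : (1 : ℝ) ≤ x := by exact_mod_cast hx
  have hsum := hK x hx (hfin x).toFinset (fun n hn => by simpa using hn)
  have hc : ∀ n : P →₀ ℕ, ‖(lamY y n : ℂ) * χ n‖ ≤ ‖LI2.dv n‖ := by
    intro n
    rw [norm_mul, Complex.norm_real, Real.norm_eq_abs]
    calc |lamY y n| * ‖χ n‖ ≤ |lamY y n| * 1 :=
          mul_le_mul_of_nonneg_left (hχ n) (abs_nonneg _)
      _ = |lamY y n| := mul_one _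
      _ ≤ _ := LI2.lamY_le hUB y hy n
  constructor
  · intro t t'
    rw [LI2.twistSum_eq q y χ x t (hfin x), LI2.twistSum_eq q y χ x t' (hfin x),
      ← Finset.sum_sub_distrib]
    have hterm : ∀ n ∈ (hfin x).toFinset,
        ‖(lamY y n : ℂ) * χ n * (norm q n : ℂ) ^ (-(1 / 2 : ℂ) - t * Complex.I) -
          (lamY y n : ℂ) * χ n * (norm q n : ℂ) ^ (-(1 / 2 : ℂ) - t' * Complex.I)‖ ≤
          ‖LI2.dv n‖ * ((x : ℝ) * |t - t'|) := by
      intro n hn
      have hn' : norm q n ≤ x := by simpa using hn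
      rw [← mul_sub, norm_mul]
      have a2 := LIP.norm_cpow_sub_le (norm q n) (hpos n) t t'
      have a3 : ((norm q n : ℕ) : ℝ) * |t - t'| ≤ x * |t - t'| :=
        mul_le_mul_of_nonneg_right (by exact_mod_cast hn') (abs_nonneg _)
      exact mul_le_mul (hc n) (a2.trans a3) (norm_nonneg _) (norm_nonneg _)
    calc _ ≤ ∑ n ∈ (hfin x).toFinset, ‖LI2.dv n‖ * ((x : ℝ) * |t - t'|) :=
          (norm_sum_le _ _).trans (Finset.sum_le_sum hterm)
      _ = (∑ n ∈ (hfin x).toFinset, ‖LI2.dv n‖) * ((x : ℝ) * |t - t'|) := by rw [Finset.sum_mul]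
      _ ≤ (K * (x : ℝ) ^ 4) * ((x : ℝ) * |t - t'|) :=
          mul_le_mul_of_nonneg_right hsum (by positivity)
      _ = K * (x : ℝ) ^ 5 * |t - t'| := by ring
  · intro t
    rw [LI2.twistSum_eq q y χ x t (hfin x)]
    have hterm : ∀ n ∈ (hfin x).toFinset,
        ‖(lamY y n : ℂ) * χ n * (norm q n : ℂ) ^ (-(1 / 2 : ℂ) - t * Complex.I)‖ ≤ ‖LI2.dv n‖ := by
      intro n hn
      rw [norm_mul]
      have a2 := LIP.norm_cpow_le (norm q n) (hpos n) t
      calc _ ≤ ‖LI2.dv n‖ * 1 := mul_le_mul (hc n) a2 (norm_nonneg _) (norm_nonneg _)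
        _ = ‖LI2.dv n‖ := mul_one _
    calc _ ≤ ∑ n ∈ (hfin x).toFinset, ‖LI2.dv n‖ :=
          (norm_sum_le _ _).trans (Finset.sum_le_sum hterm)
      _ ≤ K * (x : ℝ) ^ 4 := hsum
      _ ≤ K * (x : ℝ) ^ 5 := by
          refine mul_le_mul_of_nonneg_left ?_ hK0
          exact pow_le_pow_right₀ hx1 (by norm_num)

end Pool.Agent.T2H86.RF
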