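import Pool.Agent.T2H86.RF.Stm

/-!
# Package LO2
-/

set_option autoImplicit false

namespace Pool.Agent.T2H86.RF

open Finset MeasureTheory ProbabilityTheory Pool.Agent.T2H86.RC

namespace LO2

theorem poly (V : ℝ) (hV : 0 ≤ V) (m : ℕ) : ∃ C : ℝ, 0 ≤ C ∧ ∀ y : ℝ, |y| ≤ V →
    |(1 + y) ^ m - 1 - m * y| ≤ C * y ^ 2 := by
  induction m with
  | zero =>
    refine ⟨0, le_refl _, fun y _ => ?_⟩
    simp
  | succ m ih =>
    obtain ⟨C, hC, h⟩ := ih
    refine ⟨(1 + V) * C + m, by positivity, fun y hy => ?_⟩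
    have e : (1 + y) ^ (m + 1) - 1 - ((m + 1 : ℕ) : ℝ) * y =
        (1 + y) * ((1 + y) ^ m - 1 - m * y) + m * y ^ 2 := by
      push_cast
      ring
    rw [e]
    have h1 : |1 + y| ≤ 1 + V := by
      calc |1 + y| ≤ |1| + |y| := abs_add_le _ _
        _ ≤ 1 + V := by rw [abs_one]; linarith
    calc |(1 + y) * ((1 + y) ^ m - 1 - m * y) + m * y ^ 2|
        ≤ |(1 + y) * ((1 + y) ^ m - 1 - m * y)| + |m * y ^ 2| := abs_add_le _ _
      _ ≤ (1 + V) * (C * y ^ 2) + m * y ^ 2 := by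
          rw [abs_mul]
          have h2 : |(m : ℝ) * y ^ 2| = m * y ^ 2 := abs_of_nonneg (by positivity)
          rw [h2]
          have h3 := mul_le_mul h1 (h y hy) (abs_nonneg _) (by linarith)
          linarith
      _ = ((1 + V) * C + m) * y ^ 2 := by ring

theorem summ (r : ℝ) (hr0 : 0 ≤ r) (hr1 : r < 1) :
    Summable (fun j : ℕ => (((j + 1 : ℕ) : ℝ) + 1) * r ^ j) := by
  have h1 : Summable (fun j : ℕ => (j : ℝ) ^ 1 * r ^ j) := by
    apply summable_pow_mul_geometric_of_norm_lt_one 1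
    rw [Real.norm_eq_abs, abs_of_nonneg hr0]
    exact hr1
  have h2 : Summable (fun j : ℕ => r ^ j) := summable_geometric_of_lt_one hr0 hr1
  refine (h1.add (h2.mul_left 2)).congr fun j => ?_
  rw [pow_one]
  push_cast
  ring

end LO2

open LO2 in
theorem pLO2 (hUB : S_UB) : S_LO2 := by
  obtain ⟨hU0, hUb, hUc⟩ := hUB
  intro k
  set r₀ : ℝ := (2 : ℝ) ^ (-(1 / 2) : ℝ) with hr₀
  have hr₀0 : 0 < r₀ := by rw [hr₀]; positivity
  have hr₀1 : r₀ < 1 := by
    rw [hr₀]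
    apply Real.rpow_lt_one_of_one_lt_of_neg (by norm_num) (by norm_num)
  set C₀ : ℝ := ∑' j : ℕ, (((j + 1 : ℕ) : ℝ) + 1) * r₀ ^ j with hC₀
  have hC₀0 : 0 ≤ C₀ := tsum_nonneg fun j => by positivity
  obtain ⟨C, hC, hpoly⟩ := poly C₀ hC₀0 (2 * k)
  refine ⟨C * C₀ ^ 2, by positivity, ?_⟩
  intro Ω _ μ _ Y hY hb hst J q hq
  have hq2 : (2 : ℝ) ≤ q := by exact_mod_cast hq
  have hq0 : (0 : ℝ) < q := by linarith
  set r : ℝ := (q : ℝ) ^ (-(1 / 2) : ℝ) with hr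
  have hr0 : 0 < r := by rw [hr]; positivity
  have hrr₀ : r ≤ r₀ := by
    rw [hr, hr₀]
    exact Real.rpow_le_rpow_of_nonpos (by norm_num) hq2 (by norm_num)
  have hrsq : r ^ 2 = 1 / q := by
    rw [hr, ← Real.rpow_natCast, ← Real.rpow_mul hq0.le]
    have e : (-(1 / 2) : ℝ) * ((2 : ℕ) : ℝ) = -1 := by norm_num
    rw [e, Real.rpow_neg_one, one_div]
  have hpow : ∀ j : ℕ, (q : ℝ) ^ (-(j : ℝ) / 2) = r ^ j := by
    intro j
    rw [hr, ← Real.rpow_natCast, ← Real.rpow_mul hq0.le]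
    congr 1
    ring
  -- the fluctuation
  set z : Ω → ℝ := fun ω => ∑ j ∈ range J, r ^ (j + 1) * U (j + 1) (Y ω) with hz
  have hsum : ∀ ω, ∑ j ∈ range (J + 1), (q : ℝ) ^ (-(j : ℝ) / 2) * U j (Y ω) = 1 + z ω := by
    intro ω
    rw [Finset.sum_range_succ']
    simp only [hpow, hU0, pow_zero, mul_one]
    rw [add_comm]
  have hterm : ∀ (ω : Ω) (j : ℕ), |r ^ (j + 1) * U (j + 1) (Y ω)| ≤
      r * ((((j + 1 : ℕ) : ℝ) + 1) * r₀ ^ j) := by
    intro ω j
    rw [abs_mul, abs_of_nonneg (pow_nonneg hr0.le _)]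
    have h1 := hUb (j + 1) (Y ω) (hb ω)
    have h2 : r ^ (j + 1) ≤ r * r₀ ^ j := by
      rw [pow_succ, mul_comm]
      exact mul_le_mul_of_nonneg_left (pow_le_pow_left₀ hr0.le hrr₀ _) hr0.le
    calc r ^ (j + 1) * |U (j + 1) (Y ω)| ≤ (r * r₀ ^ j) * (((j + 1 : ℕ) : ℝ) + 1) :=
          mul_le_mul h2 h1 (abs_nonneg _) (by positivity)
      _ = _ := by ring
  have hzb : ∀ ω, |z ω| ≤ C₀ * r := by
    intro ω
    calc |z ω| ≤ ∑ j ∈ range J, |r ^ (j + 1) * U (j + 1) (Y ω)| := Finset.abs_sum_le_sum_abs _ _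
      _ ≤ ∑ j ∈ range J, r * ((((j + 1 : ℕ) : ℝ) + 1) * r₀ ^ j) :=
          Finset.sum_le_sum fun j _ => hterm ω j
      _ = r * ∑ j ∈ range J, (((j + 1 : ℕ) : ℝ) + 1) * r₀ ^ j := by rw [Finset.mul_sum]
      _ ≤ r * C₀ := by
          apply mul_le_mul_of_nonneg_left _ hr0.le
          exact (summ r₀ hr₀0.le hr₀1).sum_le_tsum (range J) fun j _ => by positivity
      _ = C₀ * r := mul_comm _ _
  have hr1 : r ≤ 1 := hrr₀.trans hr₀1.le
  have hzC : ∀ ω, |z ω| ≤ C₀ := fun ω =>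
    (hzb ω).trans (mul_le_of_le_one_right hC₀0 hr1)
  have hUm : ∀ j : ℕ, Measurable (fun ω => U j (Y ω)) := fun j => (hUc j).measurable.comp hY
  have hzm : Measurable z := by
    apply Finset.measurable_fun_sum
    intro j _
    exact (hUm (j + 1)).const_mul _
  have hUint : ∀ j : ℕ, Integrable (fun ω => U j (Y ω)) μ := by
    intro j
    refine Integrable.of_bound (hUm j).aestronglyMeasurable ((j : ℝ) + 1)
      (Filter.Eventually.of_forall fun ω => ?_)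
    rw [Real.norm_eq_abs]
    exact hUb j _ (hb ω)
  have hzint : Integrable z μ := by
    refine Integrable.of_bound hzm.aestronglyMeasurable C₀ (Filter.Eventually.of_forall fun ω => ?_)
    rw [Real.norm_eq_abs]
    exact hzC ω
  have hz0 : ∫ ω, z ω ∂μ = 0 := by
    rw [hz]
    rw [integral_finsetSum _ (fun j _ => (hUint (j + 1)).const_mul _)]
    apply Finset.sum_eq_zero
    intro j _
    rw [integral_const_mul, hst (j + 1) (by omega), mul_zero]
  have hpt : ∀ ω, (∑ j ∈ range (J + 1), (q : ℝ) ^ (-(j : ℝ) / 2) * U j (Y ω)) ^ (2 * k) ≤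
      (2 * (k : ℝ)) * z ω + (1 + C * (C₀ ^ 2 / q)) := by
    intro ω
    rw [hsum ω]
    have h1 := (abs_le.1 (hpoly _ (hzC ω))).2
    push_cast at h1
    have h2 : z ω ^ 2 ≤ C₀ ^ 2 / q := by
      rw [← sq_abs (z ω)]
      calc |z ω| ^ 2 ≤ (C₀ * r) ^ 2 := pow_le_pow_left₀ (abs_nonneg _) (hzb ω) 2
        _ = C₀ ^ 2 / q := by rw [mul_pow, hrsq]; ring
    have h3 := mul_le_mul_of_nonneg_left h2 hC
    linarith
  have hgint : Integrable (fun ω =>
      (∑ j ∈ range (J + 1), (q : ℝ) ^ (-(j : ℝ) / 2) * U j (Y ω)) ^ (2 * k)) μ := by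
    have e1 : (fun ω => (∑ j ∈ range (J + 1), (q : ℝ) ^ (-(j : ℝ) / 2) * U j (Y ω)) ^ (2 * k)) =
        fun ω => (1 + z ω) ^ (2 * k) := by
      funext ω
      rw [hsum ω]
    rw [e1]
    refine Integrable.of_bound (C := (1 + C₀) ^ (2 * k))
      ((measurable_const.add hzm).pow_const _).aestronglyMeasurable
      (Filter.Eventually.of_forall fun ω => ?_)
    rw [norm_pow, Real.norm_eq_abs]
    apply pow_le_pow_left₀ (abs_nonneg _)
    calc |1 + z ω| ≤ |1| + |z ω| := abs_add_le _ _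
      _ ≤ 1 + C₀ := by rw [abs_one]; linarith [hzC ω]
  have hmono := integral_mono hgint ((hzint.const_mul (2 * (k : ℝ))).add (integrable_const _)) hpt
  refine hmono.trans (le_of_eq ?_)
  have e2 : ∫ ω, ((2 * (k : ℝ)) * z ω + (1 + C * (C₀ ^ 2 / q))) ∂μ = 1 + C * C₀ ^ 2 / q := by
    rw [integral_add (hzint.const_mul _) (integrable_const _), integral_const_mul, hz0, mul_zero,
      zero_add, integral_const]
    simp
    ring
  exact e2

end Pool.Agent.T2H86.RF
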