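import Pool.Agent.T2H86.RF.Stm

set_option autoImplicit false

namespace Pool.Agent.T2H86.RF

open Finset MeasureTheory ProbabilityTheory Pool.Agent.T2H86.RC

theorem pME2 (hFIN2 : S_FIN2) (hUB : S_UB) : S_ME2 := by
  intro P Ω _ μ Y hY q hq χ x t
  obtain ⟨hfin, -, -⟩ := hFIN2 q hq
  have h1 : (fun ω => twistSum q (fun p => Y p ω) χ x t) = fun ω =>
      ∑ n ∈ (hfin x).toFinset, (lamY (fun p => Y p ω) n : ℂ) * χ n *
        (norm q n : ℂ) ^ (-(1 / 2 : ℂ) - t * Complex.I) := by
    funext ω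
    unfold twistSum
    exact finsum_mem_eq_finite_toFinset_sum (fun n => (lamY (fun p => Y p ω) n : ℂ) * χ n *
        (norm q n : ℂ) ^ (-(1 / 2 : ℂ) - t * Complex.I)) (hfin x)
  rw [h1]
  refine Finset.measurable_fun_sum _ fun n _ => ?_
  refine (Measurable.mul_const ?_ _).mul_const _
  refine Complex.measurable_ofReal.comp ?_
  unfold lamY
  unfold Finsupp.prod
  refine Finset.measurable_fun_prod _ fun p _ => ?_
  exact (hUB.2.2 (n p)).measurable.comp (hY.meas p)

end Pool.Agent.T2H86.RF
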