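import Pool.Agent.T2H86.RF.Stm

set_option autoImplicit false

namespace Pool.Agent.T2H86.RF

open Finset MeasureTheory ProbabilityTheory Pool.Agent.T2H86.RC

theorem pMM2 (hFIN2 : S_FIN2) (hBO2 : S_BO2) (hPR2 : S_PR2) (hMO2 : S_MO2) (hLO2 : S_LO2)
    (hUB : S_UB) : S_MM2 := by
  intro P Ω _ μ _ Y hY q hq k ε hε
  obtain ⟨C, hC0, hC⟩ := hLO2 k
  obtain ⟨C', hC'⟩ := hq.recip (ε / (C + 1)) (by positivity)
  obtain ⟨hfin, hsup, hpos⟩ := hFIN2 q hq
  refine ⟨Real.exp (C * |C'|), fun χ hχ x hx t => ?_⟩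
  classical
  set I : Finset (P →₀ ℕ) := (hfin x).toFinset with hI
  set s : Finset P := (hq.finite x).toFinset with hs
  set J : Finset (P →₀ ℕ) := s.finsupp (fun _ => range (x + 1)) with hJ
  have hIJ : I ⊆ J := by
    intro n hn
    have hn' : norm q n ≤ x := by simpa [hI] using hn
    rw [hJ, Finset.mem_finsupp_iff]
    refine ⟨fun p hp => ?_, fun p _ => ?_⟩
    · rw [hs, Set.Finite.mem_toFinset]
      exact (hsup x n hn').1 p hp
    · rw [Finset.mem_range]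
      have := (hsup x n hn').2 p
      omega
  have hcs : ∀ y : P → ℝ, twistSum q y χ x t =
      ∑ n ∈ I, (χ n * (norm q n : ℂ) ^ (-(1 / 2 : ℂ) - t * Complex.I)) * (lamY y n : ℂ) := by
    intro y
    have h1 := finsum_mem_eq_finite_toFinset_sum
      (fun n : P →₀ ℕ => (lamY y n : ℂ) * χ n * (norm q n : ℂ) ^ (-(1 / 2 : ℂ) - t * Complex.I))
      (hfin x)
    unfold twistSum
    rw [hI]
    refine Eq.trans h1 (Finset.sum_congr rfl fun n _ => ?_)
    ring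
  have hnorm : ∀ n : P →₀ ℕ, ‖χ n * (norm q n : ℂ) ^ (-(1 / 2 : ℂ) - t * Complex.I)‖ ≤
      (norm q n : ℝ) ^ (-(1 / 2) : ℝ) := by
    intro n
    rw [norm_mul, Complex.norm_natCast_cpow_of_pos (hpos n)]
    have h1 : (-(1 / 2 : ℂ) - t * Complex.I).re = (-(1 / 2) : ℝ) := by simp
    rw [h1]
    have h2 : (0 : ℝ) ≤ (norm q n : ℝ) ^ (-(1 / 2) : ℝ) := by positivity
    nlinarith [hχ n]
  have h1 : ∫ ω, ‖twistSum q (fun p => Y p ω) χ x t‖ ^ (2 * k) ∂μ ≤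
      ∫ ω, (∑ n ∈ J, (norm q n : ℝ) ^ (-(1 / 2) : ℝ) * lamY (fun p => Y p ω) n) ^ (2 * k) ∂μ := by
    have h2 := hMO2 μ Y hY k I J hIJ
      (fun n => χ n * (norm q n : ℂ) ^ (-(1 / 2 : ℂ) - t * Complex.I))
      (fun n => (norm q n : ℝ) ^ (-(1 / 2) : ℝ))
      (fun n _ => hnorm n) (fun n _ => by positivity)
    simpa only [hcs] using h2
  have h4 : ∫ ω, (∑ n ∈ J, (norm q n : ℝ) ^ (-(1 / 2) : ℝ) * lamY (fun p => Y p ω) n) ^ (2 * k) ∂μ =
      ∏ p ∈ s, ∫ ω, (∑ j ∈ range (x + 1), (q p : ℝ) ^ (-(j : ℝ) / 2) * U j (Y p ω)) ^ (2 * k) ∂μ := by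
    rw [← hPR2 μ Y hY.meas hY.indep hY.bdd s
      (fun p y => (∑ j ∈ range (x + 1), (q p : ℝ) ^ (-(j : ℝ) / 2) * U j y) ^ (2 * k))
      (fun p => by
        have hU := hUB.2.2
        exact (continuous_finset_sum _ fun j _ => continuous_const.mul (hU j)).pow _)]
    congr 1
    funext ω
    rw [← hBO2 q hq s x (fun p => Y p ω), ← Finset.prod_pow]
  have h5 : ∀ p ∈ s, ∫ ω, (∑ j ∈ range (x + 1), (q p : ℝ) ^ (-(j : ℝ) / 2) * U j (Y p ω)) ^ (2 * k) ∂μ ≤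
      Real.exp (C * (1 / (q p : ℝ))) := by
    intro p _
    have h6 := hC μ (Y p) (hY.meas p) (hY.bdd p) (hY.satoTate p) x (q p) (hq.two_le p)
    refine h6.trans ?_
    have := Real.add_one_le_exp (C * (1 / (q p : ℝ)))
    have h7 : C / (q p : ℝ) = C * (1 / (q p : ℝ)) := by ring
    linarith
  have h7 : ∏ p ∈ s, ∫ ω, (∑ j ∈ range (x + 1), (q p : ℝ) ^ (-(j : ℝ) / 2) * U j (Y p ω)) ^ (2 * k) ∂μ ≤
      ∏ p ∈ s, Real.exp (C * (1 / (q p : ℝ))) := by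
    refine Finset.prod_le_prod (fun p _ => ?_) h5
    refine integral_nonneg fun ω => ?_
    exact (even_two_mul k).pow_nonneg _
  rw [← Real.exp_sum, ← Finset.mul_sum] at h7
  have h8 := hC' x hx s (fun p hp => by
    rw [hs, Set.Finite.mem_toFinset] at hp
    exact hp)
  have hx1 : (1 : ℝ) ≤ x := by exact_mod_cast hx
  have hlog : 0 ≤ Real.log x := Real.log_nonneg hx1
  have h9 : C * ∑ p ∈ s, 1 / (q p : ℝ) ≤ C * |C'| + Real.log x * ε := by
    have h10 : C * (ε / (C + 1) * Real.log x + C') ≤ C * |C'| + Real.log x * ε := by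
      have h11 : C * (ε / (C + 1)) ≤ ε := by
        rw [mul_div_assoc', div_le_iff₀ (by positivity)]
        nlinarith
      have h12 : C * C' ≤ C * |C'| := mul_le_mul_of_nonneg_left (le_abs_self _) hC0
      nlinarith
    exact (mul_le_mul_of_nonneg_left h8 hC0).trans h10
  calc ∫ ω, ‖twistSum q (fun p => Y p ω) χ x t‖ ^ (2 * k) ∂μ
      ≤ _ := h1
    _ = _ := h4
    _ ≤ _ := h7
    _ ≤ Real.exp (C * |C'| + Real.log x * ε) := Real.exp_le_exp.mpr h9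
    _ = Real.exp (C * |C'|) * (x : ℝ) ^ ε := by
      rw [Real.exp_add, Real.rpow_def_of_pos (by linarith)]

end Pool.Agent.T2H86.RF
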