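import Pool.Agent.T2H86.RF.Stm

set_option autoImplicit false

namespace Pool.Agent.T2H86.RF

open Finset MeasureTheory ProbabilityTheory Pool.Agent.T2H86.RC

namespace MO2

variable {N : Type}

lemma pow_expand (l : N → ℝ) (k : ℕ) (I : Finset N) (a : N → ℂ) :
    (∑ n ∈ I, a n * (l n : ℂ)) ^ k =
      ∑ g ∈ Fintype.piFinset (fun _ : Fin k => I), (∏ i, a (g i)) * ((∏ i, l (g i) : ℝ) : ℂ) := by
  have h1 : (∑ n ∈ I, a n * (l n : ℂ)) ^ k = ∏ _i : Fin k, ∑ n ∈ I, a n * (l n : ℂ) := by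
    rw [prod_const, card_univ, Fintype.card_fin]
  rw [h1, prod_univ_sum]
  refine sum_congr rfl fun g _ => ?_
  rw [prod_mul_distrib]
  push_cast
  rfl

lemma pow_expand_real (l : N → ℝ) (k : ℕ) (I : Finset N) (c : N → ℝ) :
    (∑ n ∈ I, c n * l n) ^ k =
      ∑ g ∈ Fintype.piFinset (fun _ : Fin k => I), (∏ i, c (g i)) * ∏ i, l (g i) := by
  have h1 : (∑ n ∈ I, c n * l n) ^ k = ∏ _i : Fin k, ∑ n ∈ I, c n * l n := by
    rw [prod_const, card_univ, Fintype.card_fin]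
  rw [h1, prod_univ_sum]
  refine sum_congr rfl fun g _ => ?_
  rw [prod_mul_distrib]

lemma norm_expand (l : N → ℝ) (k : ℕ) (I : Finset N) (a : N → ℂ) :
    ‖∑ n ∈ I, a n * (l n : ℂ)‖ ^ (2 * k) =
      ∑ g ∈ Fintype.piFinset (fun _ : Fin k => I), ∑ h ∈ Fintype.piFinset (fun _ : Fin k => I),
        ((∏ i, a (g i)) * (starRingEnd ℂ) (∏ i, a (h i))).re * ((∏ i, l (g i)) * ∏ i, l (h i)) := by
  set z := ∑ n ∈ I, a n * (l n : ℂ) with hz
  have h1 : ((‖z‖ ^ (2 * k) : ℝ) : ℂ) = z ^ k * (starRingEnd ℂ) (z ^ k) := by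
    rw [map_pow, ← mul_pow, Complex.mul_conj, Complex.normSq_eq_norm_sq, pow_mul]
    push_cast
    rfl
  have h2 : ‖z‖ ^ (2 * k) = (z ^ k * (starRingEnd ℂ) (z ^ k)).re := by
    rw [← h1, Complex.ofReal_re]
  rw [h2, hz, pow_expand, map_sum, sum_mul_sum, Complex.re_sum]
  refine sum_congr rfl fun g _ => ?_
  rw [Complex.re_sum]
  refine sum_congr rfl fun h _ => ?_
  rw [map_mul, Complex.conj_ofReal]
  have h3 : (∏ i, a (g i)) * ((∏ i, l (g i) : ℝ) : ℂ) * ((starRingEnd ℂ) (∏ i, a (h i)) * ((∏ i, l (h i) : ℝ) : ℂ)) =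
      ((∏ i, a (g i)) * (starRingEnd ℂ) (∏ i, a (h i))) * (((∏ i, l (g i)) * ∏ i, l (h i) : ℝ) : ℂ) := by
    push_cast
    ring
  rw [h3, Complex.re_mul_ofReal]

lemma real_expand (l : N → ℝ) (k : ℕ) (I : Finset N) (c : N → ℝ) :
    (∑ n ∈ I, c n * l n) ^ (2 * k) =
      ∑ g ∈ Fintype.piFinset (fun _ : Fin k => I), ∑ h ∈ Fintype.piFinset (fun _ : Fin k => I),
        ((∏ i, c (g i)) * ∏ i, c (h i)) * ((∏ i, l (g i)) * ∏ i, l (h i)) := by
  rw [two_mul, pow_add, pow_expand_real, sum_mul_sum]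
  refine sum_congr rfl fun g _ => sum_congr rfl fun h _ => ?_
  ring

end MO2

theorem pMO2 (hEX2 : S_EX2) : S_MO2 := by
  intro P Ω _ μ _ Y hY k I J hIJ a c hac hc
  obtain ⟨hm, hb, hpos⟩ := hEX2 μ Y hY
  have hbI : ∀ {κ : Type} (s : Finset κ) (g : κ → (P →₀ ℕ)), ∃ B : ℝ, 0 ≤ B ∧
      ∀ ω, |∏ i ∈ s, lamY (fun p => Y p ω) (g i)| ≤ B := by
    intro κ s g
    classical
    induction s using Finset.induction_on with
    | empty => exact ⟨1, zero_le_one, fun ω => by simp⟩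
    | insert x s hx ih =>
      obtain ⟨B, hB0, hB⟩ := ih
      obtain ⟨B', hB'⟩ := hb (g x)
      refine ⟨|B'| * B, by positivity, fun ω => ?_⟩
      rw [prod_insert hx, abs_mul]
      exact mul_le_mul ((hB' ω).trans (le_abs_self _)) (hB ω) (abs_nonneg _) (abs_nonneg _)
  have hmI : ∀ {κ : Type} (s : Finset κ) (g : κ → (P →₀ ℕ)),
      Measurable (fun ω => ∏ i ∈ s, lamY (fun p => Y p ω) (g i)) := by
    intro κ s g
    exact Finset.measurable_prod s fun i _ => hm (g i)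
  have hint : ∀ (C : ℝ) (g h : Fin k → (P →₀ ℕ)), Integrable (fun ω => C *
      ((∏ i, lamY (fun p => Y p ω) (g i)) * ∏ i, lamY (fun p => Y p ω) (h i))) μ := by
    intro C g h
    refine Integrable.const_mul ?_ C
    obtain ⟨B1, hB10, hB1⟩ := hbI univ g
    obtain ⟨B2, hB20, hB2⟩ := hbI univ h
    refine Integrable.of_bound ((hmI univ g).mul (hmI univ h)).aestronglyMeasurable (B1 * B2)
      (Filter.Eventually.of_forall fun ω => ?_)
    rw [Real.norm_eq_abs, abs_mul]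
    exact mul_le_mul (hB1 ω) (hB2 ω) (abs_nonneg _) hB10
  have hE : ∀ (g h : Fin k → (P →₀ ℕ)), 0 ≤ ∫ ω,
      ((∏ i, lamY (fun p => Y p ω) (g i)) * ∏ i, lamY (fun p => Y p ω) (h i)) ∂μ := by
    intro g h
    have h1 := hpos (univ : Finset (Fin k ⊕ Fin k)) (Sum.elim g h)
    simp only [Fintype.prod_sum_type, Sum.elim_inl, Sum.elim_inr] at h1
    exact h1
  have h1 : ∫ ω, ‖∑ n ∈ I, a n * (lamY (fun p => Y p ω) n : ℂ)‖ ^ (2 * k) ∂μ =
      ∑ g ∈ Fintype.piFinset (fun _ : Fin k => I), ∑ h ∈ Fintype.piFinset (fun _ : Fin k => I),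
        ((∏ i, a (g i)) * (starRingEnd ℂ) (∏ i, a (h i))).re *
          ∫ ω, ((∏ i, lamY (fun p => Y p ω) (g i)) * ∏ i, lamY (fun p => Y p ω) (h i)) ∂μ := by
    have e : ∀ ω, ‖∑ n ∈ I, a n * (lamY (fun p => Y p ω) n : ℂ)‖ ^ (2 * k) =
      ∑ g ∈ Fintype.piFinset (fun _ : Fin k => I), ∑ h ∈ Fintype.piFinset (fun _ : Fin k => I),
        ((∏ i, a (g i)) * (starRingEnd ℂ) (∏ i, a (h i))).re *
          ((∏ i, lamY (fun p => Y p ω) (g i)) * ∏ i, lamY (fun p => Y p ω) (h i)) :=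
      fun ω => MO2.norm_expand (fun n => lamY (fun p => Y p ω) n) k I a
    simp_rw [e]
    rw [integral_finset_sum _ fun g _ => integrable_finset_sum _ fun h _ => hint _ _ _]
    refine sum_congr rfl fun g _ => ?_
    rw [integral_finset_sum _ fun h _ => hint _ _ _]
    exact sum_congr rfl fun h _ => integral_const_mul _ _
  have h2 : ∫ ω, (∑ n ∈ J, c n * lamY (fun p => Y p ω) n) ^ (2 * k) ∂μ =
      ∑ g ∈ Fintype.piFinset (fun _ : Fin k => J), ∑ h ∈ Fintype.piFinset (fun _ : Fin k => J),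
        ((∏ i, c (g i)) * ∏ i, c (h i)) *
          ∫ ω, ((∏ i, lamY (fun p => Y p ω) (g i)) * ∏ i, lamY (fun p => Y p ω) (h i)) ∂μ := by
    have e : ∀ ω, (∑ n ∈ J, c n * lamY (fun p => Y p ω) n) ^ (2 * k) =
      ∑ g ∈ Fintype.piFinset (fun _ : Fin k => J), ∑ h ∈ Fintype.piFinset (fun _ : Fin k => J),
        ((∏ i, c (g i)) * ∏ i, c (h i)) *
          ((∏ i, lamY (fun p => Y p ω) (g i)) * ∏ i, lamY (fun p => Y p ω) (h i)) :=
      fun ω => MO2.real_expand (fun n => lamY (fun p => Y p ω) n) k J c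
    simp_rw [e]
    rw [integral_finset_sum _ fun g _ => integrable_finset_sum _ fun h _ => hint _ _ _]
    refine sum_congr rfl fun g _ => ?_
    rw [integral_finset_sum _ fun h _ => hint _ _ _]
    exact sum_congr rfl fun h _ => integral_const_mul _ _
  rw [h1, h2]
  have hsub : Fintype.piFinset (fun _ : Fin k => I) ⊆ Fintype.piFinset (fun _ : Fin k => J) :=
    Fintype.piFinset_subset _ _ fun _ => hIJ
  have hcJ : ∀ g ∈ Fintype.piFinset (fun _ : Fin k => J), 0 ≤ ∏ i, c (g i) := by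
    intro g hg
    exact prod_nonneg fun i _ => hc _ (Fintype.mem_piFinset.1 hg i)
  have hA : ∀ g ∈ Fintype.piFinset (fun _ : Fin k => I), ‖∏ i, a (g i)‖ ≤ ∏ i, c (g i) := by
    intro g hg
    rw [norm_prod]
    exact prod_le_prod (fun i _ => norm_nonneg _) fun i _ => hac _ (Fintype.mem_piFinset.1 hg i)
  calc ∑ g ∈ Fintype.piFinset (fun _ : Fin k => I), ∑ h ∈ Fintype.piFinset (fun _ : Fin k => I),
        ((∏ i, a (g i)) * (starRingEnd ℂ) (∏ i, a (h i))).re *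
          ∫ ω, ((∏ i, lamY (fun p => Y p ω) (g i)) * ∏ i, lamY (fun p => Y p ω) (h i)) ∂μ
      ≤ ∑ g ∈ Fintype.piFinset (fun _ : Fin k => I), ∑ h ∈ Fintype.piFinset (fun _ : Fin k => I),
        ((∏ i, c (g i)) * ∏ i, c (h i)) *
          ∫ ω, ((∏ i, lamY (fun p => Y p ω) (g i)) * ∏ i, lamY (fun p => Y p ω) (h i)) ∂μ := by
        refine sum_le_sum fun g hg => sum_le_sum fun h hh => ?_
        refine mul_le_mul_of_nonneg_right ?_ (hE g h)
        refine (Complex.re_le_norm _).trans ?_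
        rw [norm_mul, RCLike.norm_conj]
        exact mul_le_mul (hA g hg) (hA h hh) (norm_nonneg _) (hcJ g (hsub hg))
    _ ≤ ∑ g ∈ Fintype.piFinset (fun _ : Fin k => I), ∑ h ∈ Fintype.piFinset (fun _ : Fin k => J),
        ((∏ i, c (g i)) * ∏ i, c (h i)) *
          ∫ ω, ((∏ i, lamY (fun p => Y p ω) (g i)) * ∏ i, lamY (fun p => Y p ω) (h i)) ∂μ := by
        refine sum_le_sum fun g hg => sum_le_sum_of_subset_of_nonneg hsub fun h hh _ => ?_
        exact mul_nonneg (mul_nonneg (hcJ g (hsub hg)) (hcJ h hh)) (hE g h)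
    _ ≤ ∑ g ∈ Fintype.piFinset (fun _ : Fin k => J), ∑ h ∈ Fintype.piFinset (fun _ : Fin k => J),
        ((∏ i, c (g i)) * ∏ i, c (h i)) *
          ∫ ω, ((∏ i, lamY (fun p => Y p ω) (g i)) * ∏ i, lamY (fun p => Y p ω) (h i)) ∂μ := by
        refine sum_le_sum_of_subset_of_nonneg hsub fun g hg _ => sum_nonneg fun h hh => ?_
        exact mul_nonneg (mul_nonneg (hcJ g hg) (hcJ h hh)) (hE g h)

end Pool.Agent.T2H86.RF
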