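import Pool.Agent.T2H86.RC.Defs

/-!
Project RF (second hand-in for MP_21d687_nt, HARD).
THEOREM. Let `λ` be the coefficients of a random `PGL₂` form: `λ(p^j) = U_j(Y_p)`, where the `Y_p` (the
cosines of the Satake angles) are independent with the Sato-Tate law. Then, almost surely, the Lindelöf
bound holds for ALL twists of any given family at once, e.g. for all quadratic twists `χ_D`: for all
`A, ε > 0` there is `C` such that `|∑_{N n ≤ x} λ(n) χ_D(n) N(n)^(-1/2 - i t)| ≤ C x^ε` for all `x ≥ 1`,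
all `|D| ≤ x^A` and all `|t| ≤ x^A`.
Independent packages; the deps are hypotheses of the package theorem.
-/

set_option autoImplicit false

namespace Pool.Agent.T2H86.RF

open Finset MeasureTheory ProbabilityTheory Pool.Agent.T2H86.RC

/-- The Chebyshev polynomial of the second kind, `U_j(cos a) = sin ((j + 1) a) / sin a`. -/
noncomputable def U (j : ℕ) (y : ℝ) : ℝ := (Polynomial.Chebyshev.U ℝ (j : ℤ)).eval y

/-- The random forms: the `Y p` are independent, with values in `[-1, 1]` and with the Sato-Tate law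
(the law on `[-1, 1]` with the density `(2 / π) √(1 - y²)`, that is, the expectations of
`U_1, U_2, …` vanish). -/
structure Forms {P Ω : Type} [MeasurableSpace Ω] (μ : Measure Ω) (Y : P → Ω → ℝ) : Prop where
  meas : ∀ p, Measurable (Y p)
  indep : iIndepFun Y μ
  bdd : ∀ p ω, |Y p ω| ≤ 1
  satoTate : ∀ (p : P) (j : ℕ), 1 ≤ j → ∫ ω, U j (Y p ω) ∂μ = 0

/-- The coefficient `λ(n) = ∏ U_(n p)(y p)` of the form with the Satake parameters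
`exp (± i arccos (y p))`. -/
noncomputable def lamY {P : Type} (y : P → ℝ) (n : P →₀ ℕ) : ℝ := n.prod fun p j => U j (y p)

/-- The sum `∑ λ(n) χ(n) N(n)^(-1/2 - i t)` over the ideals `n` of norm at most `x`. -/
noncomputable def twistSum {P : Type} (q : P → ℕ) (y : P → ℝ) (χ : (P →₀ ℕ) → ℂ) (x : ℕ)
    (t : ℝ) : ℂ :=
  ∑ᶠ (n : P →₀ ℕ) (_ : norm q n ≤ x),
    (lamY y n : ℂ) * χ n * (norm q n : ℂ) ^ (-(1 / 2 : ℂ) - t * Complex.I)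

/-- F2FIN (20 minutes, no deps; the same as `S_FIN` of the project RC). -/
def S_FIN2 : Prop := ∀ {P : Type} (q : P → ℕ), PrimeSystem q →
  (∀ x : ℕ, {n : P →₀ ℕ | norm q n ≤ x}.Finite) ∧
  (∀ (x : ℕ) (n : P →₀ ℕ), norm q n ≤ x → (∀ p ∈ n.support, q p ≤ x) ∧ ∀ p, n p ≤ x) ∧
  (∀ n : P →₀ ℕ, 1 ≤ norm q n)

/-- UB (25 minutes, no deps). `U 0 y = 1`, `|U j y| ≤ j + 1` for `|y| ≤ 1` (induction with
`U (j + 1) (cos a) sin a = sin ((j + 2) a) = sin ((j + 1) a) cos a + cos ((j + 1) a) sin a`, i.e.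
`U_(j+1) = cos a U_j + cos ((j + 1) a)`; write `y = cos a`; Mathlib: `Polynomial.Chebyshev.U_complex_cos`,
`Polynomial.Chebyshev.U_real_cos`, `U_eq_X_mul_U_add_T`), `U j` is continuous. -/
def S_UB : Prop := (∀ y : ℝ, U 0 y = 1) ∧ (∀ (j : ℕ) (y : ℝ), |y| ≤ 1 → |U j y| ≤ (j : ℝ) + 1) ∧
  ∀ j : ℕ, Continuous (U j)

/-- CG (45 minutes, dep UB). Clebsch-Gordan: `U_a U_b = ∑_{i ≤ min a b} U_(a + b - 2 i)`, hence (induction
over the finite set) a product of functions `U_(e i)` is a finite sum of functions `U_c` with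
nonnegative integer coefficients, so that its expectation is a nonnegative integer. For one random variable
with values in `[-1, 1]` for which the expectations of `U_1, U_2, …` vanish. -/
def S_CG : Prop := ∀ {Ω : Type} [MeasurableSpace Ω] (μ : Measure Ω) [IsProbabilityMeasure μ]
  (Y : Ω → ℝ), Measurable Y → (∀ ω, |Y ω| ≤ 1) → (∀ j : ℕ, 1 ≤ j → ∫ ω, U j (Y ω) ∂μ = 0) →
  ∀ {ι : Type} (s : Finset ι) (e : ι → ℕ), 0 ≤ ∫ ω, ∏ i ∈ s, U (e i) (Y ω) ∂μ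

/-- PR2 (30 minutes, no deps). Independence, as in `S_PRD` of the project RC. -/
def S_PR2 : Prop := ∀ {P Ω : Type} [MeasurableSpace Ω] (μ : Measure Ω) [IsProbabilityMeasure μ]
  (Y : P → Ω → ℝ), (∀ p, Measurable (Y p)) → iIndepFun Y μ → (∀ p ω, |Y p ω| ≤ 1) →
  ∀ (s : Finset P) (F : P → ℝ → ℝ), (∀ p, Continuous (F p)) →
  ∫ ω, ∏ p ∈ s, F p (Y p ω) ∂μ = ∏ p ∈ s, ∫ ω, F p (Y p ω) ∂μ

/-- EX2 (35 minutes, deps UB CG PR2). `lamY y n = ∏_{p ∈ s} U (n p) (y p)` for `s` containing the support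
(`U 0 = 1`), so the product over `i` is the product over `p ∈ s` (union of the supports) of
`∏_i U (g i p) (Y p)`; PR2 and CG. -/
def S_EX2 : Prop := ∀ {P Ω : Type} [MeasurableSpace Ω] (μ : Measure Ω) [IsProbabilityMeasure μ]
  (Y : P → Ω → ℝ), Forms μ Y →
  (∀ n : P →₀ ℕ, Measurable (fun ω => lamY (fun p => Y p ω) n)) ∧
  (∀ n : P →₀ ℕ, ∃ B : ℝ, ∀ ω, |lamY (fun p => Y p ω) n| ≤ B) ∧
  ∀ {ι : Type} (s : Finset ι) (g : ι → (P →₀ ℕ)),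
    0 ≤ ∫ ω, ∏ i ∈ s, lamY (fun p => Y p ω) (g i) ∂μ

/-- MO2 (60 minutes, dep EX2). Expand
`‖∑_{n ∈ I} a n λ(n)‖^(2k) = ∑ over (g, h) ∈ (Fin k → I)^2 of ∏ a (g i) ∏ conj (a (h i)) ∏ λ(g i) ∏ λ(h i)`;
the expectations of the products of the `λ` are nonnegative (EX2 with the index type `Fin k ⊕ Fin k`), so
the expectation is at most the same sum with `c` instead of `a` over `I`, and this is at most the sum
over `J`. -/
def S_MO2 : Prop := ∀ {P Ω : Type} [MeasurableSpace Ω] (μ : Measure Ω) [IsProbabilityMeasure μ]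
  (Y : P → Ω → ℝ), Forms μ Y → ∀ (k : ℕ) (I J : Finset (P →₀ ℕ)), I ⊆ J →
  ∀ (a : (P →₀ ℕ) → ℂ) (c : (P →₀ ℕ) → ℝ), (∀ n ∈ I, ‖a n‖ ≤ c n) → (∀ n ∈ J, 0 ≤ c n) →
  ∫ ω, ‖∑ n ∈ I, a n * (lamY (fun p => Y p ω) n : ℂ)‖ ^ (2 * k) ∂μ ≤
    ∫ ω, (∑ n ∈ J, c n * lamY (fun p => Y p ω) n) ^ (2 * k) ∂μ

/-- LO2 (45 minutes, dep UB). Put `z = ∑_{1 ≤ j ≤ J} r^j U_j(Y)` with `r = q^(-1/2) ≤ 2^(-1/2)`. Then
`E z = 0`, `|z| ≤ ∑_{j ≥ 1} (j + 1) r^j ≤ C₀ r` and `(1 + z)^(2k) ≤ 1 + 2 k z + C z²` for `|z| ≤ C₀`, hence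
the expectation is at most `1 + C C₀² r²`. -/
def S_LO2 : Prop := ∀ k : ℕ, ∃ C : ℝ, 0 ≤ C ∧
  ∀ {Ω : Type} [MeasurableSpace Ω] (μ : Measure Ω) [IsProbabilityMeasure μ] (Y : Ω → ℝ),
  Measurable Y → (∀ ω, |Y ω| ≤ 1) → (∀ j : ℕ, 1 ≤ j → ∫ ω, U j (Y ω) ∂μ = 0) →
  ∀ (J q : ℕ), 2 ≤ q →
  ∫ ω, (∑ j ∈ range (J + 1), (q : ℝ) ^ (-(j : ℝ) / 2) * U j (Y ω)) ^ (2 * k) ∂μ ≤ 1 + C / q

/-- BO2 (30 minutes, dep UB). Expand the product over `s`; for `n` in the box the support is in `s`, the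
norm is `∏_{p ∈ s} (q p)^(n p)` and `lamY y n = ∏_{p ∈ s} U (n p) (y p)`. -/
def S_BO2 : Prop := ∀ {P : Type} (q : P → ℕ), PrimeSystem q → ∀ (s : Finset P) (J : ℕ) (y : P → ℝ),
  ∏ p ∈ s, (∑ j ∈ range (J + 1), (q p : ℝ) ^ (-(j : ℝ) / 2) * U j (y p)) =
    ∑ n ∈ s.finsupp (fun _ => range (J + 1)), (norm q n : ℝ) ^ (-(1 / 2) : ℝ) * lamY y n

/-- MM2 (45 minutes, deps FIN2 BO2 PR2 MO2 LO2 UB). As `S_MOM` of the project RC (see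
`Pool/Agent/T2H86/RC/MOM.lean`): by MO2 with `c n = N(n)^(-1/2)` the moment is at most the one of the sum
over the box, which is a product (BO2), so by PR2 and LO2 it is at most
`∏_{q p ≤ x} (1 + C / q p) ≤ exp (C ∑ 1 / q p) ≤ exp (C (ε' log x + C'))`. -/
def S_MM2 : Prop := ∀ {P Ω : Type} [MeasurableSpace Ω] (μ : Measure Ω) [IsProbabilityMeasure μ]
  (Y : P → Ω → ℝ), Forms μ Y → ∀ (q : P → ℕ), PrimeSystem q →
  ∀ (k : ℕ) (ε : ℝ), 0 < ε → ∃ C : ℝ, ∀ (χ : (P →₀ ℕ) → ℂ), (∀ n, ‖χ n‖ ≤ 1) →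
  ∀ x : ℕ, 1 ≤ x → ∀ t : ℝ,
  ∫ ω, ‖twistSum q (fun p => Y p ω) χ x t‖ ^ (2 * k) ∂μ ≤ C * (x : ℝ) ^ ε

/-- LI2 (50 minutes, deps FIN2 UB). `|λ(n)| ≤ ∏ (n p + 1) ≤ norm q n` (as `j + 1 ≤ 2^j ≤ (q p)^j`). The
number of `n` with `norm q n ≤ x` is at most `K x^3`: it is at most
`x^2 ∑_{n in the box} N(n)^(-2) = x^2 ∏_{q p ≤ x} ∑_{j ≤ x} (q p)^(-2j) ≤ x^2 ∏ (1 + 2 / (q p)) ≤ x^2 exp (2 ∑ 1/q p)`
(`Finset.prod_sum` or induction for the box, `recip` with `ε = 1/2`). Hence all sums have at most `K x^3`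
terms of size at most `x`, and `|N^(-1/2 - i t) - N^(-1/2 - i t')| ≤ |t - t'| log N ≤ |t - t'| x`. -/
def S_LI2 : Prop := ∀ {P : Type} (q : P → ℕ), PrimeSystem q → ∃ K : ℝ, 0 ≤ K ∧
  ∀ (y : P → ℝ), (∀ p, |y p| ≤ 1) → ∀ (χ : (P →₀ ℕ) → ℂ), (∀ n, ‖χ n‖ ≤ 1) → ∀ (x : ℕ), 1 ≤ x →
  (∀ t t' : ℝ, ‖twistSum q y χ x t - twistSum q y χ x t'‖ ≤ K * (x : ℝ) ^ 5 * |t - t'|) ∧
  ∀ t : ℝ, ‖twistSum q y χ x t‖ ≤ K * (x : ℝ) ^ 5

/-- ME2 (20 minutes, deps FIN2 UB). The finsum is a finite sum of measurable functions. -/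
def S_ME2 : Prop := ∀ {P Ω : Type} [MeasurableSpace Ω] (μ : Measure Ω) (Y : P → Ω → ℝ),
  Forms μ Y → ∀ (q : P → ℕ), PrimeSystem q → ∀ (χ : (P →₀ ℕ) → ℂ) (x : ℕ) (t : ℝ),
  Measurable (fun ω => twistSum q (fun p => Y p ω) χ x t)

/-- BC2 (60 minutes, no deps; compare `Pool/Agent/T2H86/RC/BCA.lean`, the case without the index `i`).
For natural numbers `m` and `r ≥ 1` consider the net of the points `j / x^5`, `j` an integer,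
`|j| ≤ x^(m + 5) + 1`, and the events `E_x`: `‖F i x t‖ > x^(1/r)` for some `t` of the net and some `i` with
`h i ≤ x^m` (there are at most `C₁ x^(m B)` of them). By Markov's inequality for the moment of order `2k`,
with `ε = 1`, the probability of `E_x` is at most `C₁ x^(m B) (2 x^(m+5) + 3) C x^(1 - 2k/r)`, summable if
`2k/r ≥ m B + m + 8`. Borel-Cantelli (`MeasureTheory.ae_eventually_notMem`), then the Lipschitz bound in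
`t`; for the finitely many `x` in `E_x` the trivial bound `K x^5`. Intersect over all `m, r`; given `A, ε`
take `m ≥ A`, `1/r ≤ ε`. -/
def S_BC2 : Prop := ∀ {Ω ι : Type} [MeasurableSpace Ω] (μ : Measure Ω) [IsProbabilityMeasure μ]
  (h : ι → ℕ) (F : ι → ℕ → ℝ → Ω → ℂ),
  (∃ (B : ℕ) (C : ℝ), ∀ x : ℕ, 1 ≤ x → ∀ S : Finset ι, (∀ i ∈ S, h i ≤ x) →
    (S.card : ℝ) ≤ C * (x : ℝ) ^ B) →
  (∀ i x t, Measurable (F i x t)) →
  (∀ (k : ℕ) (ε : ℝ), 0 < ε → ∃ C : ℝ, ∀ (i : ι) (x : ℕ), 1 ≤ x → ∀ t : ℝ,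
    ∫ ω, ‖F i x t ω‖ ^ (2 * k) ∂μ ≤ C * (x : ℝ) ^ ε) →
  (∃ K : ℝ, 0 ≤ K ∧ ∀ (i : ι) (x : ℕ), 1 ≤ x → ∀ ω,
    (∀ t t' : ℝ, ‖F i x t ω - F i x t' ω‖ ≤ K * (x : ℝ) ^ 5 * |t - t'|) ∧
    ∀ t : ℝ, ‖F i x t ω‖ ≤ K * (x : ℝ) ^ 5) →
  ∀ᵐ ω ∂μ, ∀ A ε : ℝ, 0 < A → 0 < ε → ∃ C : ℝ, ∀ x : ℕ, 1 ≤ x → ∀ i : ι,
    (h i : ℝ) ≤ (x : ℝ) ^ A → ∀ t : ℝ, |t| ≤ (x : ℝ) ^ A → ‖F i x t ω‖ ≤ C * (x : ℝ) ^ ε

end Pool.Agent.T2H86.RF
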