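import Pool.Agent.T2H86.RF.Stm

set_option autoImplicit false

namespace Pool.Agent.T2H86.RF

open Finset MeasureTheory ProbabilityTheory Pool.Agent.T2H86.RC

namespace UB

lemma T_le {y : ℝ} (hy : |y| ≤ 1) (n : ℤ) : |(Polynomial.Chebyshev.T ℝ n).eval y| ≤ 1 := by
  obtain ⟨h1, h2⟩ := abs_le.1 hy
  rw [← Real.cos_arccos h1 h2, Polynomial.Chebyshev.T_real_cos]
  exact Real.abs_cos_le_one _

lemma bound {y : ℝ} (hy : |y| ≤ 1) (j : ℕ) : |U j y| ≤ (j : ℝ) + 1 := by
  induction j with
  | zero => simp [U]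
  | succ j ih =>
    have h1 : U (j + 1) y = y * U j y + (Polynomial.Chebyshev.T ℝ ((j : ℤ) + 1)).eval y := by
      unfold U
      push_cast
      rw [Polynomial.Chebyshev.U_eq_X_mul_U_add_T]
      simp
    rw [h1]
    refine (abs_add_le _ _).trans ?_
    rw [abs_mul]
    have h2 := T_le hy ((j : ℤ) + 1)
    have h3 : |y| * |U j y| ≤ 1 * ((j : ℝ) + 1) :=
      mul_le_mul hy ih (abs_nonneg _) zero_le_one
    push_cast
    linarith

end UB

theorem pUB : S_UB := by
  refine ⟨fun y => by simp [U], fun j y hy => UB.bound hy j, fun j => ?_⟩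
  unfold U
  exact Polynomial.continuous _

end Pool.Agent.T2H86.RF
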